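import Mathlib

/-!
Squad RAD (helper51): the sum of the absolute values of the coefficients of a real polynomial, and
truncated roots of polynomials.
-/

set_option autoImplicit false

namespace Pool.Agent.RAD.H51

open Polynomial

section

variable {𝕜 : Type*} [NormedField 𝕜]

/-- the polynomial with the absolute values of the coefficients -/
noncomputable def ab (p : 𝕜[X]) : ℝ[X] :=
  ∑ i ∈ Finset.range (p.natDegree + 1), C ‖p.coeff i‖ * X ^ i

lemma ab_coeff (p : 𝕜[X]) (n : ℕ) : (ab p).coeff n = ‖p.coeff n‖ := by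
  rw [ab, finsetSum_coeff]
  simp only [coeff_C_mul_X_pow]
  rw [Finset.sum_ite_eq]
  split_ifs with h
  · rfl
  · rw [Finset.mem_range, not_lt] at h
    rw [coeff_eq_zero_of_natDegree_lt (by omega), norm_zero]

/-- the sum of the absolute values of the coefficients -/
noncomputable def nm (p : 𝕜[X]) : ℝ := (ab p).eval 1

lemma eval_one_eq (p : ℝ[X]) {n : ℕ} (h : p.natDegree < n) :
    p.eval 1 = ∑ i ∈ Finset.range n, p.coeff i := by
  rw [eval_eq_sum_range' h]
  simp

lemma nm_le_of_coeff {p : 𝕜[X]} {q : ℝ[X]} (h : ∀ i, ‖p.coeff i‖ ≤ q.coeff i) :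
    nm p ≤ q.eval 1 := by
  set n := max (ab p).natDegree q.natDegree + 1
  rw [nm, eval_one_eq _ (show (ab p).natDegree < n by omega),
    eval_one_eq _ (show q.natDegree < n by omega)]
  exact Finset.sum_le_sum fun i _ => by rw [ab_coeff]; exact h i

lemma nm_nonneg (p : 𝕜[X]) : 0 ≤ nm p := by
  rw [nm, eval_one_eq _ (Nat.lt_succ_self _)]
  exact Finset.sum_nonneg fun i _ => by rw [ab_coeff]; exact norm_nonneg _

lemma coeff_le_nm (p : 𝕜[X]) (i : ℕ) : ‖p.coeff i‖ ≤ nm p := by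
  have h : (ab p).natDegree < (ab p).natDegree + 1 + i := by omega
  rw [nm, eval_one_eq _ h, ← ab_coeff]
  by_cases hi : i < (ab p).natDegree + 1 + i
  · exact Finset.single_le_sum (f := fun i => (ab p).coeff i)
      (fun j _ => by rw [ab_coeff]; exact norm_nonneg _) (Finset.mem_range.2 hi)
  · omega

lemma nm_add (p q : 𝕜[X]) : nm (p + q) ≤ nm p + nm q := by
  rw [nm, nm, nm, ← eval_add]
  refine nm_le_of_coeff fun i => ?_
  rw [coeff_add, coeff_add, ab_coeff, ab_coeff]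
  exact norm_add_le _ _

lemma nm_neg (p : 𝕜[X]) : nm (-p) ≤ nm p :=
  nm_le_of_coeff fun i => by rw [coeff_neg, norm_neg, ab_coeff]

lemma nm_sub (p q : 𝕜[X]) : nm (p - q) ≤ nm p + nm q := by
  rw [sub_eq_add_neg]
  exact (nm_add _ _).trans (by linarith [nm_neg q])

lemma nm_mul (p q : 𝕜[X]) : nm (p * q) ≤ nm p * nm q := by
  rw [nm, nm, nm, ← eval_mul]
  refine nm_le_of_coeff fun i => ?_
  rw [coeff_mul, coeff_mul]
  refine (norm_sum_le _ _).trans (Finset.sum_le_sum fun x _ => ?_)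
  rw [norm_mul, ab_coeff, ab_coeff]

lemma nm_C_mul_X_pow (a : 𝕜) (n : ℕ) : nm (C a * X ^ n) ≤ ‖a‖ := by
  have : nm (C a * X ^ n : 𝕜[X]) ≤ (C ‖a‖ * X ^ n : ℝ[X]).eval 1 := nm_le_of_coeff fun i => by
    rw [coeff_C_mul_X_pow, coeff_C_mul_X_pow]; split_ifs <;> simp
  simpa using this

lemma nm_one : nm (1 : 𝕜[X]) ≤ 1 := by
  have := nm_C_mul_X_pow (1 : 𝕜) 0
  simpa using this

lemma nm_pow_le (p : 𝕜[X]) (e : ℕ) : nm (p ^ e) ≤ nm p ^ e := by
  induction e with
  | zero => simpa using nm_one (𝕜 := 𝕜)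
  | succ n ih =>
    rw [pow_succ, pow_succ]
    exact (nm_mul _ _).trans (mul_le_mul_of_nonneg_right ih (nm_nonneg _))

lemma nm_X_pow_mul (p : 𝕜[X]) (m : ℕ) : nm (X ^ m * p) = nm p := by
  have : ab (X ^ m * p) = X ^ m * ab p := by
    ext n
    rw [ab_coeff, coeff_X_pow_mul', coeff_X_pow_mul', ab_coeff]
    split_ifs <;> simp
  rw [nm, this, eval_mul]
  simp [nm]

/-- a product of linear polynomials -/
lemma nm_prod_le (s : Multiset 𝕜) (h : ∀ β ∈ s, ‖β‖ ≤ 1) :
    nm ((s.map fun β => 1 + C β * X).prod) ≤ 2 ^ (Multiset.card s) := by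
  induction s using Multiset.induction_on with
  | empty => simpa using nm_one (𝕜 := 𝕜)
  | cons β s ih =>
    rw [Multiset.map_cons, Multiset.prod_cons, Multiset.card_cons, pow_succ, mul_comm _ (2 : ℝ)]
    have h1 : nm (1 + C β * X : 𝕜[X]) ≤ 2 := by
      have a := nm_C_mul_X_pow β 1
      rw [pow_one] at a
      have b := h β (Multiset.mem_cons_self _ _)
      exact (nm_add _ _).trans (by linarith [nm_one (𝕜 := 𝕜)])
    exact (nm_mul _ _).trans (mul_le_mul h1 (ih fun β hβ => h β (Multiset.mem_cons_of_mem hβ))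
      (nm_nonneg _) (by norm_num))

lemma nm_map_ofReal (p : ℝ[X]) : nm (p.map (algebraMap ℝ ℂ)) = nm p := by
  have : ab (p.map (algebraMap ℝ ℂ)) = ab p := by
    ext n
    rw [ab_coeff, ab_coeff, coeff_map]
    simp
  rw [nm, this, nm]

lemma abs_eval_le (p : ℝ[X]) {w : ℝ} (hw : |w| ≤ 1) : |p.eval w| ≤ nm p := by
  set n := max (ab p).natDegree p.natDegree + 1
  rw [nm, eval_one_eq _ (show (ab p).natDegree < n by omega),
    eval_eq_sum_range' (show p.natDegree < n by omega)]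
  refine (Finset.abs_sum_le_sum_abs _ _).trans (Finset.sum_le_sum fun i _ => ?_)
  rw [abs_mul, abs_pow, ab_coeff, Real.norm_eq_abs]
  exact mul_le_of_le_one_right (abs_nonneg _) (pow_le_one₀ (abs_nonneg _) hw)

/-- distance of the value at a small point from the constant coefficient -/
lemma abs_eval_sub_le (p : ℝ[X]) {w : ℝ} (hw : |w| ≤ 1) :
    |p.eval w - p.coeff 0| ≤ |w| * nm p := by
  have h1 : p.eval w - p.coeff 0 = w * (divX p).eval w := by
    conv_lhs => rw [← divX_mul_X_add p]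
    simp
    ring
  have h2 : nm (divX p) ≤ nm p := by
    have e : X ^ 1 * divX p = p - C (p.coeff 0) := by
      have := divX_mul_X_add p
      rw [pow_one]
      linear_combination this
    rw [← nm_X_pow_mul (divX p) 1, e]
    rw [nm, nm]
    refine nm_le_of_coeff fun i => ?_
    rw [ab_coeff, coeff_sub, coeff_C]
    split_ifs with h
    · subst h; simp
    · simp
  rw [h1, abs_mul]
  exact mul_le_mul_of_nonneg_left ((abs_eval_le _ hw).trans h2) (abs_nonneg _)

end

/-- truncated `e`-th root -/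
lemma trunc {A : ℝ} (hA : 0 ≤ A) {e : ℕ} (he : 0 < e) (k : ℕ) :
    ∃ K : ℝ, 0 ≤ K ∧ ∀ F : ℝ[X], F.coeff 0 = 1 → nm F ≤ A →
      ∃ P Q : ℝ[X], P.natDegree ≤ k ∧ P.coeff 0 = 1 ∧ nm P ≤ K ∧ F - P ^ e = X ^ (k + 1) * Q ∧
        nm Q ≤ K := by
  induction k with
  | zero =>
    refine ⟨A + 1, by linarith, fun F h0 hF => ⟨1, divX F, ?_, ?_, ?_, ?_, ?_⟩⟩
    · simp
    · simp
    · linarith [nm_one (𝕜 := ℝ)]
    · have := divX_mul_X_add F
      rw [h0] at this
      rw [one_pow, zero_add, pow_one]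
      simp only [C_1] at this
      linear_combination -this
    · have : X ^ 1 * divX F = F - 1 := by
        have := divX_mul_X_add F
        rw [h0] at this
        simp only [C_1] at this
        rw [pow_one]
        linear_combination this
      rw [← nm_X_pow_mul (divX F) 1, this]
      exact (nm_sub _ _).trans (by linarith [nm_one (𝕜 := ℝ)])
  | succ k ih =>
    obtain ⟨K, hK, H⟩ := ih
    refine ⟨A + (K + K) ^ e + K + K, by positivity, fun F h0 hF => ?_⟩
    obtain ⟨P, Q, h1, h2, h3, h4, h5⟩ := H F h0 hF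
    set β : ℝ := Q.coeff 0 / e with hβ
    have he' : (e : ℝ) ≠ 0 := by positivity
    have hβe : β * e = Q.coeff 0 := by rw [hβ]; field_simp
    have hβK : |β| ≤ K := by
      rw [hβ, abs_div]
      have : (1 : ℝ) ≤ |(e : ℝ)| := by
        rw [abs_of_nonneg (by positivity)]; exact_mod_cast he
      exact (div_le_self (abs_nonneg _) this).trans ((coeff_le_nm Q 0).trans h5)
    set P' : ℝ[X] := P + C β * X ^ (k + 1) with hP'
    have hP'n : nm P' ≤ K + K :=
      (nm_add _ _).trans (add_le_add h3 ((nm_C_mul_X_pow _ _).trans hβK))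
    obtain ⟨S, hS⟩ : ∃ S : ℝ[X], P' ^ e - P ^ e = (P' - P) * S ∧ S.coeff 0 = e := by
      refine ⟨∑ i ∈ Finset.range e, P' ^ i * P ^ (e - 1 - i), ?_, ?_⟩
      · rw [mul_comm]; exact (Commute.geom_sum₂_mul (Commute.all P' P) e).symm
      · rw [coeff_zero_eq_eval_zero, eval_finsetSum]
        have a1 : P.eval 0 = 1 := by rw [← coeff_zero_eq_eval_zero, h2]
        have a2 : P'.eval 0 = 1 := by rw [hP']; simp [a1]
        simp [a1, a2]
    have hd : X ∣ Q - C β * S := by
      rw [X_dvd_iff, coeff_sub, coeff_C_mul, hS.2, hβe, sub_self]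
    obtain ⟨Q', hQ'⟩ := hd
    have hF' : F - P' ^ e = X ^ (k + 1 + 1) * Q' := by
      have a : P' - P = C β * X ^ (k + 1) := by rw [hP']; ring
      have b := hS.1
      rw [a] at b
      have c : F - P' ^ e = (F - P ^ e) - (P' ^ e - P ^ e) := by ring
      rw [c, h4, b, pow_succ X (k + 1), mul_assoc (X ^ (k + 1)) X Q', ← hQ']
      ring
    refine ⟨P', Q', ?_, ?_, ?_, hF', ?_⟩
    · refine natDegree_add_le_of_degree_le (by omega) (natDegree_C_mul_X_pow_le _ _)
    · rw [hP', coeff_add, coeff_C_mul_X_pow, h2]; simp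
    · have : 0 ≤ (K + K) ^ e := by positivity
      linarith
    · rw [← nm_X_pow_mul Q' (k + 1 + 1), ← hF']
      have : nm (P' ^ e) ≤ (K + K) ^ e :=
        (nm_pow_le _ _).trans (pow_le_pow_left₀ (nm_nonneg _) hP'n e)
      exact (nm_sub _ _).trans (by linarith)

/-- the truncated root approximates the root -/
lemma approx {A : ℝ} (hA : 0 ≤ A) {e : ℕ} (he : 0 < e) (k : ℕ) :
    ∃ K : ℝ, 1 ≤ K ∧ ∀ F : ℝ[X], F.coeff 0 = 1 → nm F ≤ A →
      ∃ P : ℝ[X], P.natDegree ≤ k ∧ ∀ w y : ℝ, |w| * K ≤ 1 → 0 < y → y ^ e = F.eval w →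
        |y - P.eval w| ≤ K * |w| ^ (k + 1) := by
  obtain ⟨K, hK, H⟩ := trunc hA he k
  refine ⟨2 * A + 2 * K + 2 ^ (e - 1) * K + 1, ?_, fun F h0 hF => ?_⟩
  · have : 0 ≤ (2 : ℝ) ^ (e - 1) * K := by positivity
    linarith
  obtain ⟨P, Q, h1, h2, h3, h4, h5⟩ := H F h0 hF
  refine ⟨P, h1, fun w y hw hy hye => ?_⟩
  set L : ℝ := 2 * A + 2 * K + 2 ^ (e - 1) * K + 1 with hL
  have hp : 0 ≤ (2 : ℝ) ^ (e - 1) * K := by positivity
  have hL1 : 1 ≤ L := by linarith
  have hw1 : |w| ≤ 1 := by nlinarith [abs_nonneg w]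
  have hwA : |w| * A ≤ 1 / 2 := by nlinarith [abs_nonneg w]
  have hwK : |w| * K ≤ 1 / 2 := by nlinarith [abs_nonneg w]
  have b1 : |F.eval w - 1| ≤ 1 / 2 := by
    have := abs_eval_sub_le F hw1
    rw [h0] at this
    exact this.trans ((mul_le_mul_of_nonneg_left hF (abs_nonneg _)).trans hwA)
  have b2 : |P.eval w - 1| ≤ 1 / 2 := by
    have := abs_eval_sub_le P hw1
    rw [h2] at this
    exact this.trans ((mul_le_mul_of_nonneg_left h3 (abs_nonneg _)).trans hwK)
  have c1 : 1 / 2 ≤ F.eval w := by linarith [(abs_le.1 b1).1]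
  have c2 : 1 / 2 ≤ P.eval w := by linarith [(abs_le.1 b2).1]
  have hdiff : |y ^ e - (P.eval w) ^ e| ≤ |w| ^ (k + 1) * K := by
    have : y ^ e - (P.eval w) ^ e = w ^ (k + 1) * Q.eval w := by
      rw [hye, ← eval_pow, ← eval_sub, h4, eval_mul, eval_pow, eval_X]
    rw [this, abs_mul, abs_pow]
    exact mul_le_mul_of_nonneg_left ((abs_eval_le Q hw1).trans h5) (by positivity)
  have hfac : y ^ e - (P.eval w) ^ e =
      (y - P.eval w) * ∑ i ∈ Finset.range e, y ^ i * (P.eval w) ^ (e - 1 - i) := by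
    rw [mul_comm]; exact (Commute.geom_sum₂_mul (Commute.all y (P.eval w)) e).symm
  have hsum : (1 / 2 : ℝ) ^ (e - 1) ≤ ∑ i ∈ Finset.range e, y ^ i * (P.eval w) ^ (e - 1 - i) := by
    have h0' : (0 : ℕ) ∈ Finset.range e := Finset.mem_range.2 he
    have hP0 : 0 ≤ P.eval w := by linarith
    refine le_trans ?_ (Finset.single_le_sum
      (f := fun i => y ^ i * (P.eval w) ^ (e - 1 - i)) (fun i _ => by positivity) h0')
    simp only [pow_zero, one_mul, Nat.sub_zero]
    exact pow_le_pow_left₀ (by norm_num) c2 _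
  have hkey : |y - P.eval w| * (1 / 2 : ℝ) ^ (e - 1) ≤ |w| ^ (k + 1) * K := by
    refine le_trans ?_ hdiff
    rw [hfac, abs_mul]
    refine mul_le_mul_of_nonneg_left ?_ (abs_nonneg _)
    exact hsum.trans (le_abs_self _)
  have h2e : (1 / 2 : ℝ) ^ (e - 1) * 2 ^ (e - 1) = 1 := by
    rw [← mul_pow]; norm_num
  calc |y - P.eval w| = |y - P.eval w| * (1 / 2 : ℝ) ^ (e - 1) * 2 ^ (e - 1) := by
        rw [mul_assoc, h2e, mul_one]
    _ ≤ |w| ^ (k + 1) * K * 2 ^ (e - 1) := mul_le_mul_of_nonneg_right hkey (by positivity)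
    _ = (2 ^ (e - 1) * K) * |w| ^ (k + 1) := by ring
    _ ≤ L * |w| ^ (k + 1) := mul_le_mul_of_nonneg_right (by linarith) (by positivity)

end Pool.Agent.RAD.H51
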