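import Pool.Agent.Helper94_Rad.Stmt
import Pool.Agent.Helper51_Rad.Nm

/-!
Squad RAD, module APX (helper51).
-/

set_option autoImplicit false

namespace Pool.Agent.RAD.H51

open Polynomial

lemma nm_le_of_natDegree {F : ℝ[X]} {D : ℕ} {A : ℝ} (hA : 0 ≤ A) (hD : F.natDegree ≤ D)
    (hF : ∀ n, |F.coeff n| ≤ A) : nm F ≤ (D + 1) * A := by
  have h1 : (ab F).natDegree < D + 1 := by
    refine lt_of_le_of_lt (natDegree_le_iff_coeff_eq_zero.2 fun N hN => ?_) (Nat.lt_succ_self D)
    rw [ab_coeff, coeff_eq_zero_of_natDegree_lt (by omega), norm_zero]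
  rw [nm, eval_one_eq _ h1]
  calc ∑ i ∈ Finset.range (D + 1), (ab F).coeff i ≤ ∑ i ∈ Finset.range (D + 1), A :=
        Finset.sum_le_sum fun i _ => by rw [ab_coeff, Real.norm_eq_abs]; exact hF i
    _ = (D + 1) * A := by simp

theorem apx : ApxStmt := by
  intro D k e hk he
  obtain ⟨k, rfl⟩ : ∃ k', k = k' + 1 := ⟨k - 1, by omega⟩
  obtain ⟨K, hK, H⟩ := approx (A := (D + 1) * 2 ^ D) (by positivity) (by omega : 0 < e) k
  refine ⟨K + (D + 1) * 2 ^ D * 2, by have : (0 : ℝ) ≤ (D + 1) * 2 ^ D * 2 := by positivity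
                                      linarith, fun F hD h0 hF => ?_⟩
  have hn := nm_le_of_natDegree (by positivity : (0 : ℝ) ≤ 2 ^ D) hD hF
  obtain ⟨P, hP, h⟩ := H F h0 hn
  refine ⟨P, by omega, fun w y hw hy hye => ?_⟩
  have hp : (0 : ℝ) ≤ (D + 1) * 2 ^ D * 2 := by positivity
  have hw0 := abs_nonneg w
  have hw1 : |w| * K ≤ 1 := by nlinarith
  have hw2 : |w| * ((D + 1) * 2 ^ D * 2) ≤ 1 := by nlinarith
  have hw3 : |w| ≤ 1 := by nlinarith
  have hFw : 1 / 2 ≤ F.eval w := by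
    have := abs_eval_sub_le F hw3
    rw [h0] at this
    have h4 : |w| * nm F ≤ 1 / 2 := by nlinarith
    linarith [(abs_le.1 (this.trans h4)).1]
  have hy0 : 0 < y := by
    rcases hy.eq_or_lt with h | h
    · rw [← h, zero_pow (by omega)] at hye
      linarith
    · exact h
  refine (h w y hw1 hy0 hye).trans ?_
  exact mul_le_mul_of_nonneg_right (by linarith) (by positivity)

end Pool.Agent.RAD.H51
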