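import Pool.Agent.Helper94_Rad.Stmt
import Pool.Agent.Helper51_Rad.Nm

/-!
Squad RAD, module INT (helper51): few solutions of `R c = b q ^ e` in a short interval.
-/

set_option autoImplicit false

namespace Pool.Agent.RAD.H51

open Polynomial

/-- the normalized polynomial `R (c + ρ w) / R c` -/
noncomputable def Fr (R : ℤ[X]) (cs : ℤ) (ρ : ℝ) : ℝ[X] :=
  C (((R.eval cs : ℤ) : ℝ)⁻¹) * (R.map (Int.castRingHom ℝ)).comp (C (cs : ℝ) + C ρ * X)

lemma Fr_eval (R : ℤ[X]) (cs c : ℤ) {ρ : ℝ} (hρ : ρ ≠ 0) :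
    (Fr R cs ρ).eval (((c - cs : ℤ) : ℝ) / ρ) = ((R.eval c : ℤ) : ℝ) / ((R.eval cs : ℤ) : ℝ) := by
  rw [Fr, eval_mul, eval_C, eval_comp]
  have : (C (cs : ℝ) + C ρ * X : ℝ[X]).eval (((c - cs : ℤ) : ℝ) / ρ) = (c : ℝ) := by
    simp
    field_simp
    ring
  rw [this]
  have h : (R.map (Int.castRingHom ℝ)).eval (c : ℝ) = ((R.eval c : ℤ) : ℝ) := by simp
  rw [h]
  ring

lemma Fr_coeff_zero (R : ℤ[X]) (cs : ℤ) (ρ : ℝ) (h : R.eval cs ≠ 0) :
    (Fr R cs ρ).coeff 0 = 1 := by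
  rw [coeff_zero_eq_eval_zero, Fr, eval_mul, eval_C, eval_comp]
  have h1 : (C (cs : ℝ) + C ρ * X : ℝ[X]).eval 0 = (cs : ℝ) := by simp
  have h2 : (R.map (Int.castRingHom ℝ)).eval (cs : ℝ) = ((R.eval cs : ℤ) : ℝ) := by simp
  rw [h1, h2]
  have : ((R.eval cs : ℤ) : ℝ) ≠ 0 := by exact_mod_cast h
  field_simp

lemma Fr_natDegree (R : ℤ[X]) (cs : ℤ) (ρ : ℝ) : (Fr R cs ρ).natDegree ≤ R.natDegree := by
  refine (natDegree_C_mul_le _ _).trans ?_
  refine natDegree_comp_le.trans ?_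
  have h1 : (R.map (Int.castRingHom ℝ)).natDegree ≤ R.natDegree := natDegree_map_le
  have h2 : (C (cs : ℝ) + C ρ * X : ℝ[X]).natDegree ≤ 1 := by
    refine natDegree_add_le_of_degree_le (by simp) ?_
    have := natDegree_C_mul_X_pow_le ρ 1
    simpa using this
  calc _ ≤ R.natDegree * 1 := Nat.mul_le_mul h1 h2
    _ = R.natDegree := mul_one _

lemma Fr_map (R : ℤ[X]) (cs : ℤ) {ρ : ℝ} (hρ : 0 < ρ) (hne : R.eval cs ≠ 0)
    (hN : ¬ Near R ρ cs) :
    (Fr R cs ρ).map (algebraMap ℝ ℂ) =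
      (((R.map (Int.castRingHom ℂ)).roots.map (fun a => (ρ : ℂ) / ((cs : ℂ) - a))).map
        (fun β => 1 + C β * X)).prod := by
  set p : ℂ[X] := R.map (Int.castRingHom ℂ) with hp
  have hsp : p = C p.leadingCoeff * (p.roots.map (fun a => X - C a)).prod :=
    (IsAlgClosed.splits p).eq_prod_roots
  have hroot : ∀ a ∈ p.roots, (cs : ℂ) - a ≠ 0 := by
    intro a ha h0
    refine hN ⟨a, ha, ?_⟩
    rw [h0, norm_zero]
    exact hρ
  have hev : ((R.eval cs : ℤ) : ℂ) = p.leadingCoeff * (p.roots.map (fun a => (cs : ℂ) - a)).prod := by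
    have h1 : ((R.eval cs : ℤ) : ℂ) = p.eval (cs : ℂ) := by rw [hp]; simp
    rw [h1]
    conv_lhs => rw [hsp]
    rw [eval_mul, eval_C, eval_multiset_prod, Multiset.map_map]
    congr 2
    refine Multiset.map_congr rfl fun a _ => ?_
    simp
  have hmap : (Fr R cs ρ).map (algebraMap ℝ ℂ) =
      C (((R.eval cs : ℤ) : ℂ)⁻¹) * p.comp (C (cs : ℂ) + C (ρ : ℂ) * X) := by
    rw [Fr, Polynomial.map_mul, Polynomial.map_comp, Polynomial.map_map]
    have : (algebraMap ℝ ℂ).comp (Int.castRingHom ℝ) = Int.castRingHom ℂ := RingHom.ext_int _ _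
    rw [this]
    simp [hp]
  have hcomp : p.comp (C (cs : ℂ) + C (ρ : ℂ) * X) =
      C ((R.eval cs : ℤ) : ℂ) * ((p.roots.map (fun a => (ρ : ℂ) / ((cs : ℂ) - a))).map
        (fun β => 1 + C β * X)).prod := by
    conv_lhs => rw [hsp]
    rw [mul_comp, C_comp, multiset_prod_comp, Multiset.map_map, Multiset.map_map, hev, C_mul,
      mul_assoc]
    congr 1
    have e1 : (p.roots.map (fun a => (cs : ℂ) - a)).prod = (p.roots.map (fun a => (cs : ℂ) - a)).prod :=
      rfl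
    rw [map_multiset_prod, Multiset.map_map, ← Multiset.prod_map_mul]
    congr 1
    refine Multiset.map_congr rfl fun a ha => ?_
    have := hroot a ha
    simp only [Function.comp_apply, sub_comp, X_comp, C_comp]
    have e2 : C (ρ : ℂ) = C ((cs : ℂ) - a) * C ((ρ : ℂ) / ((cs : ℂ) - a)) := by
      rw [← C_mul]; congr 1; field_simp
    rw [e2]
    simp only [C_sub]
    ring
  rw [hmap, hcomp, ← mul_assoc, ← C_mul]
  have : ((R.eval cs : ℤ) : ℂ) ≠ 0 := by exact_mod_cast hne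
  rw [inv_mul_cancel₀ this, C_1, one_mul]

lemma Fr_coeff (R : ℤ[X]) (cs : ℤ) {ρ : ℝ} (hρ : 0 < ρ) (hne : R.eval cs ≠ 0)
    (hN : ¬ Near R ρ cs) (n : ℕ) : |(Fr R cs ρ).coeff n| ≤ 2 ^ R.natDegree := by
  have h1 := coeff_le_nm (Fr R cs ρ) n
  rw [← nm_map_ofReal, Fr_map R cs hρ hne hN] at h1
  refine h1.trans ((nm_prod_le _ ?_).trans ?_)
  · intro β hβ
    obtain ⟨a, ha, rfl⟩ := Multiset.mem_map.1 hβ
    rw [norm_div]
    have h2 : ρ ≤ ‖(cs : ℂ) - a‖ := by
      by_contra h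
      exact hN ⟨a, ha, not_le.1 h⟩
    rw [Complex.norm_real, Real.norm_eq_abs, abs_of_pos hρ]
    exact div_le_one_of_le₀ h2 (norm_nonneg _)
  · rw [Multiset.card_map, ← (IsAlgClosed.splits (R.map (Int.castRingHom ℂ))).natDegree_eq_card_roots]
    exact pow_le_pow_right₀ (by norm_num) natDegree_map_le

/-- a divided difference of integers close to the values of a polynomial of small degree
vanishes -/
lemma dd_zero {s : Finset ℤ} {k : ℕ} (hs : s.card = k + 1) {t q : ℤ → ℤ} (ht : Set.InjOn t s)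
    {G : ℝ[X]} (hG : G.natDegree < k) {η τ : ℝ} (hτ : 1 ≤ τ)
    (hη : ∀ i ∈ s, |(q i : ℝ) - G.eval (t i : ℝ)| ≤ η)
    (hd : ∀ i ∈ s, ∀ j ∈ s, |((t i - t j : ℤ) : ℝ)| ≤ τ)
    (hlt : (k + 1) * (η * τ ^ (k * k)) < 1) :
    ∑ i ∈ s, (q i : ℚ) / ∏ j ∈ s.erase i, ((t i : ℚ) - t j) = 0 := by
  classical
  set D : ℤ → ℤ := fun i => ∏ j ∈ s.erase i, (t i - t j) with hD
  have hD0 : ∀ i ∈ s, D i ≠ 0 := by
    intro i hi
    refine Finset.prod_ne_zero_iff.2 fun j hj => ?_
    rw [Finset.mem_erase] at hj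
    exact sub_ne_zero.2 fun h => hj.1 (ht hj.2 hi h.symm)
  set W : ℤ → ℤ := fun i => ∏ j ∈ s.erase i, D j with hW
  have hWD : ∀ i ∈ s, D i * W i = ∏ j ∈ s, D j := fun i hi => Finset.mul_prod_erase s D hi
  have hDabs : ∀ i ∈ s, |((D i : ℤ) : ℝ)| ≤ τ ^ k := by
    intro i hi
    rw [hD]
    push_cast
    rw [Finset.abs_prod]
    have hc : (s.erase i).card = k := by rw [Finset.card_erase_of_mem hi, hs]; omega
    rw [← hc, ← Finset.prod_const]
    refine Finset.prod_le_prod (fun j _ => abs_nonneg _) fun j hj => ?_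
    have := hd i hi j (Finset.mem_of_mem_erase hj)
    push_cast at this
    exact this
  have hWabs : ∀ i ∈ s, |((W i : ℤ) : ℝ)| ≤ τ ^ (k * k) := by
    intro i hi
    rw [hW]
    push_cast
    rw [Finset.abs_prod]
    have hc : (s.erase i).card = k := by rw [Finset.card_erase_of_mem hi, hs]; omega
    rw [pow_mul]
    conv_rhs => rw [← hc]
    rw [hc, ← hc, ← Finset.prod_const]
    refine Finset.prod_le_prod (fun j _ => abs_nonneg _) fun j hj => ?_
    rw [hc]
    exact hDabs j (Finset.mem_of_mem_erase hj)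
  have hGsum : ∑ i ∈ s, G.eval (t i : ℝ) * ((W i : ℤ) : ℝ) = 0 := by
    have hinj : Set.InjOn (fun i => ((t i : ℤ) : ℝ)) s := by
      intro i hi j hj hij
      have hij' : ((t i : ℤ) : ℝ) = ((t j : ℤ) : ℝ) := hij
      exact ht hi hj (by exact_mod_cast hij')
    have hdeg : G.degree < (s.card : WithBot ℕ) := by
      rw [hs]
      refine lt_of_le_of_lt degree_le_natDegree ?_
      exact_mod_cast (by omega : G.natDegree < k + 1)
    have h1 := Lagrange.coeff_eq_sum (v := fun i => ((t i : ℤ) : ℝ)) hinj hdeg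
    rw [hs, Nat.add_sub_cancel, coeff_eq_zero_of_natDegree_lt hG] at h1
    have h2 : ∀ i ∈ s, G.eval (t i : ℝ) * ((W i : ℤ) : ℝ) =
        (G.eval ((t i : ℤ) : ℝ) / ∏ j ∈ s.erase i, (((t i : ℤ) : ℝ) - ((t j : ℤ) : ℝ))) *
          ((∏ j ∈ s, D j : ℤ) : ℝ) := by
      intro i hi
      rw [← hWD i hi]
      have h3 : ∏ j ∈ s.erase i, (((t i : ℤ) : ℝ) - ((t j : ℤ) : ℝ)) = ((D i : ℤ) : ℝ) := by
        rw [hD]; push_cast; rfl
      have h4 : ((D i : ℤ) : ℝ) ≠ 0 := by exact_mod_cast hD0 i hi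
      rw [h3]
      push_cast
      field_simp
    rw [Finset.sum_congr rfl h2, ← Finset.sum_mul, ← h1, zero_mul]
  have hN : ∑ i ∈ s, q i * W i = 0 := by
    have h1 : |((∑ i ∈ s, q i * W i : ℤ) : ℝ)| < 1 := by
      have h2 : ((∑ i ∈ s, q i * W i : ℤ) : ℝ) =
          ∑ i ∈ s, ((q i : ℝ) - G.eval (t i : ℝ)) * ((W i : ℤ) : ℝ) := by
        simp only [sub_mul, Finset.sum_sub_distrib, hGsum, sub_zero]
        push_cast
        rfl
      rw [h2]
      refine lt_of_le_of_lt ?_ hlt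
      refine (Finset.abs_sum_le_sum_abs _ _).trans ?_
      have h3 : ∀ i ∈ s, |((q i : ℝ) - G.eval (t i : ℝ)) * ((W i : ℤ) : ℝ)| ≤ η * τ ^ (k * k) := by
        intro i hi
        rw [abs_mul]
        exact mul_le_mul (hη i hi) (hWabs i hi) (abs_nonneg _) ((abs_nonneg _).trans (hη i hi))
      refine (Finset.sum_le_card_nsmul _ _ _ h3).trans ?_
      rw [hs, nsmul_eq_mul]
      push_cast
      exact le_refl _
    have h2 : |∑ i ∈ s, q i * W i| < 1 := by exact_mod_cast h1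
    exact Int.abs_lt_one_iff.1 h2
  have hP : ((∏ j ∈ s, D j : ℤ) : ℚ) ≠ 0 := by
    exact_mod_cast Finset.prod_ne_zero_iff.2 hD0
  have h5 : (∑ i ∈ s, (q i : ℚ) / ∏ j ∈ s.erase i, ((t i : ℚ) - t j)) *
      ((∏ j ∈ s, D j : ℤ) : ℚ) = 0 := by
    rw [Finset.sum_mul]
    have h6 : ∀ i ∈ s, (q i : ℚ) / (∏ j ∈ s.erase i, ((t i : ℚ) - t j)) *
        ((∏ j ∈ s, D j : ℤ) : ℚ) = ((q i * W i : ℤ) : ℚ) := by
      intro i hi
      rw [← hWD i hi]
      have h3 : ∏ j ∈ s.erase i, ((t i : ℚ) - t j) = ((D i : ℤ) : ℚ) := by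
        rw [hD]; push_cast; rfl
      have h4 : ((D i : ℤ) : ℚ) ≠ 0 := by exact_mod_cast hD0 i hi
      rw [h3]
      push_cast
      field_simp
    rw [Finset.sum_congr rfl h6]
    exact_mod_cast hN
  exact (mul_eq_zero.1 h5).resolve_right hP

/-- the values are those of a polynomial of small degree -/
lemma exists_poly {S : Finset ℤ} {k : ℕ} (hk : 1 ≤ k) (hS : k ≤ S.card) {t q : ℤ → ℤ}
    (ht : Set.InjOn t S) {G : ℝ[X]} (hG : G.natDegree < k) {η τ : ℝ} (hτ : 1 ≤ τ)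
    (hη : ∀ i ∈ S, |(q i : ℝ) - G.eval (t i : ℝ)| ≤ η)
    (hd : ∀ i ∈ S, ∀ j ∈ S, |((t i - t j : ℤ) : ℝ)| ≤ τ)
    (hlt : (k + 1) * (η * τ ^ (k * k)) < 1) :
    ∃ L : ℚ[X], L.natDegree < k ∧ ∀ c ∈ S, L.eval (t c : ℚ) = q c := by
  classical
  obtain ⟨T, hTS, hT⟩ := Finset.exists_subset_card_eq hS
  obtain ⟨tq, htq⟩ : ∃ f : ℤ → ℚ, ∀ i, f i = t i := ⟨fun i => t i, fun _ => rfl⟩
  obtain ⟨qq, hqq⟩ : ∃ f : ℤ → ℚ, ∀ i, f i = q i := ⟨fun i => q i, fun _ => rfl⟩
  have hinj : ∀ {s : Finset ℤ}, s ⊆ S → Set.InjOn tq s := by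
    intro s hs i hi j hj hij
    rw [htq, htq] at hij
    exact ht (hs hi) (hs hj) (by exact_mod_cast hij)
  obtain ⟨L, hL⟩ : ∃ L : ℚ[X], L = Lagrange.interpolate T tq qq := ⟨_, rfl⟩
  have hLdeg : L.degree < (k : WithBot ℕ) := by
    rw [← hT, hL]; exact Lagrange.degree_interpolate_lt _ (hinj hTS)
  have hLT : ∀ i ∈ T, L.eval (tq i) = qq i := fun i hi => by
    rw [hL]; exact Lagrange.eval_interpolate_at_node _ (hinj hTS) hi
  have hLnat : L.natDegree < k := by
    by_cases h0 : L = 0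
    · rw [h0, natDegree_zero]; omega
    · exact (natDegree_lt_iff_degree_lt h0).2 hLdeg
  refine ⟨L, hLnat, fun c hc => ?_⟩
  rw [← htq, ← hqq]
  by_cases hcT : c ∈ T
  · exact hLT c hcT
  have hsub : insert c T ⊆ S := Finset.insert_subset hc hTS
  have hcard : (insert c T).card = k + 1 := by rw [Finset.card_insert_of_notMem hcT, hT]
  have h1 := dd_zero hcard (ht.mono (by exact_mod_cast hsub)) hG hτ (q := q)
    (fun i hi => hη i (hsub hi)) (fun i hi j hj => hd i (hsub hi) j (hsub hj)) hlt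
  simp only [← htq, ← hqq] at h1
  have h2 := Lagrange.coeff_eq_sum (hinj hsub) (P := L)
    (by rw [hcard]; exact hLdeg.trans (by exact_mod_cast Nat.lt_succ_self k))
  rw [hcard, Nat.add_sub_cancel, coeff_eq_zero_of_natDegree_lt hLnat] at h2
  rw [Finset.sum_insert hcT] at h1 h2
  have h3 : ∀ i ∈ T, qq i / (∏ j ∈ (insert c T).erase i, (tq i - tq j)) =
      L.eval (tq i) / (∏ j ∈ (insert c T).erase i, (tq i - tq j)) := by
    intro i hi
    rw [hLT i hi]
  rw [Finset.sum_congr rfl h3] at h1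
  have h4 : (∏ j ∈ (insert c T).erase c, (tq c - tq j)) ≠ 0 := by
    refine Finset.prod_ne_zero_iff.2 fun j hj => sub_ne_zero.2 fun h => ?_
    rw [Finset.mem_erase] at hj
    exact hj.1 (hinj hsub hj.2 (Finset.mem_insert_self c T) h.symm)
  have h5 : qq c / (∏ j ∈ (insert c T).erase c, (tq c - tq j)) =
      L.eval (tq c) / (∏ j ∈ (insert c T).erase c, (tq c - tq j)) := by
    linarith
  exact ((div_left_inj' h4).1 h5).symm

/-- a separable polynomial, after an affine substitution, is not a constant times a power -/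
lemma not_power {P L : ℚ[X]} (hsep : P.Separable) (hdeg : 1 ≤ P.natDegree) {a v b : ℚ} (hv : v ≠ 0)
    {e : ℕ} (he : 2 ≤ e) : P.comp (C a + C v * X) ≠ C b * L ^ e := by
  intro h
  have hl : (C a + C v * X : ℚ[X]).natDegree = 1 := by
    rw [add_comm]
    exact natDegree_linear hv
  have hd1 : L ∣ P.comp (C a + C v * X) := by
    rw [h]
    exact Dvd.dvd.mul_left (dvd_pow_self L (by omega)) _
  have hd2 : L ∣ (derivative P).comp (C a + C v * X) := by
    have h1 : derivative (P.comp (C a + C v * X)) = C v * (derivative P).comp (C a + C v * X) := by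
      rw [derivative_comp]
      simp
    have h2 : L ∣ derivative (P.comp (C a + C v * X)) := by
      rw [h, derivative_C_mul, derivative_pow]
      refine Dvd.dvd.mul_left ?_ _
      refine Dvd.dvd.mul_right ?_ _
      exact Dvd.dvd.mul_left (dvd_pow_self L (by omega)) _
    rw [h1] at h2
    have h3 : (derivative P).comp (C a + C v * X) =
        C v⁻¹ * (C v * (derivative P).comp (C a + C v * X)) := by
      rw [← mul_assoc, ← C_mul, inv_mul_cancel₀ hv, C_1, one_mul]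
    rw [h3]
    exact Dvd.dvd.mul_left h2 _
  obtain ⟨x, y, hxy⟩ := (separable_def P).1 hsep
  have h4 : L ∣ 1 := by
    have h5 := congrArg (fun z => z.comp (C a + C v * X)) hxy
    simp only [add_comp, mul_comp, one_comp] at h5
    rw [← h5]
    exact dvd_add (Dvd.dvd.mul_left hd1 _) (Dvd.dvd.mul_left hd2 _)
  have h6 : L.natDegree = 0 := natDegree_eq_zero_of_isUnit (isUnit_of_dvd_one h4)
  have h7 : (P.comp (C a + C v * X)).natDegree = P.natDegree := by
    rw [natDegree_comp, hl, mul_one]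
  have h8 : (C b * L ^ e).natDegree ≤ 0 := by
    refine (natDegree_C_mul_le _ _).trans ?_
    refine natDegree_pow_le.trans ?_
    rw [h6, mul_zero]
  rw [h] at h7
  omega

theorem int (hA : ApxStmt) : IntStmt := by
  intro D k e hD hk he
  obtain ⟨Ca, hCa, hApx⟩ := hA D k e hk (by omega)
  refine ⟨(k + 1) * Ca, ?_, ?_⟩
  · have : (0 : ℝ) ≤ k := by positivity
    nlinarith
  intro R hdeg hsep b c₀ v ρ Q Λ hb hv hvΛ hΛρ hQ hlt S hS hdiff
  by_contra hcard
  rw [not_le] at hcard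
  have hk0 : (0 : ℝ) ≤ k := by positivity
  have hv0 : (0 : ℝ) < v := by exact_mod_cast hv
  have hΛ0 : 0 < Λ := lt_of_lt_of_le hv0 hvΛ
  have hCC : Ca ≤ (k + 1) * Ca := by nlinarith
  have hΛCa : Λ * Ca ≤ ρ := (mul_le_mul_of_nonneg_left hCC hΛ0.le).trans hΛρ
  have hρ : 0 < ρ := lt_of_lt_of_le (by positivity) hΛCa
  have hSne : S.Nonempty := by
    rw [← Finset.card_pos]; omega
  obtain ⟨cs, hcs⟩ := hSne
  have hq : ∀ c : ℤ, ∃ q : ℤ, c ∈ S → 1 ≤ q ∧ (q : ℝ) ≤ Q ∧ R.eval c = b * q ^ e := by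
    intro c
    by_cases hc : c ∈ S
    · obtain ⟨-, -, q, h1, h2, h3⟩ := hS c hc
      exact ⟨q, fun _ => ⟨by exact_mod_cast h1, by exact_mod_cast h2, h3⟩⟩
    · exact ⟨0, fun h => absurd h hc⟩
  choose q hq using hq
  have hqs := hq cs hcs
  have hRs : R.eval cs ≠ 0 := by
    rw [hqs.2.2]
    exact mul_ne_zero hb (pow_ne_zero _ (by omega))
  have hNs : ¬ Near R ρ cs := (hS cs hcs).2.1
  obtain ⟨P, hPdeg, hP⟩ := hApx (Fr R cs ρ) ((Fr_natDegree R cs ρ).trans hdeg.le)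
    (Fr_coeff_zero R cs ρ hRs) (by rw [← hdeg]; exact Fr_coeff R cs hρ hRs hNs)
  -- the integers `t`
  have hdvd : ∀ c ∈ S, (v : ℤ) ∣ c - cs := by
    intro c hc
    have h1 := (hS c hc).1
    have h2 := (hS cs hcs).1
    exact (Int.modEq_iff_dvd.1 (h2.trans h1.symm))
  set t : ℤ → ℤ := fun c => (c - cs) / v with ht
  have htv : ∀ c ∈ S, (v : ℤ) * t c = c - cs := fun c hc => Int.mul_ediv_cancel' (hdvd c hc)
  have htinj : Set.InjOn t S := by
    intro c hc c' hc' h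
    have h1 := htv c hc
    have h2 := htv c' hc'
    rw [h, h2] at h1
    linarith
  have htd : ∀ i ∈ S, ∀ j ∈ S, |((t i - t j : ℤ) : ℝ)| ≤ Λ / v := by
    intro i hi j hj
    rw [le_div_iff₀ hv0]
    have h1 : ((t i - t j : ℤ) : ℝ) * v = ((i - j : ℤ) : ℝ) := by
      have h2 : (t i - t j) * (v : ℤ) = i - j := by
        have h3 := htv i hi
        have h4 := htv j hj
        linear_combination h3 - h4
      exact_mod_cast h2
    rw [← abs_of_pos hv0, ← abs_mul, h1]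
    exact hdiff i hi j hj
  set G : ℝ[X] := C (q cs : ℝ) * P.comp (C ((v : ℝ) / ρ) * X) with hG
  have hGdeg : G.natDegree < k := by
    refine lt_of_le_of_lt ((natDegree_C_mul_le _ _).trans natDegree_comp_le) ?_
    have h2 : (C ((v : ℝ) / ρ) * X : ℝ[X]).natDegree ≤ 1 := by
      have := natDegree_C_mul_X_pow_le ((v : ℝ) / ρ) 1
      simpa using this
    calc P.natDegree * _ ≤ P.natDegree * 1 := Nat.mul_le_mul_left _ h2
      _ < k := by omega
  have hqs0 : (0 : ℝ) < q cs := by exact_mod_cast (by omega : 0 < q cs)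
  have hη : ∀ i ∈ S, |(q i : ℝ) - G.eval (t i : ℝ)| ≤ Q * (Ca * (Λ / ρ) ^ k) := by
    intro i hi
    have hqi := hq i hi
    have hqi0 : (0 : ℝ) < q i := by exact_mod_cast (by omega : 0 < q i)
    set w : ℝ := ((i - cs : ℤ) : ℝ) / ρ with hw
    have hwabs : |w| ≤ Λ / ρ := by
      rw [hw, abs_div, abs_of_pos hρ]
      exact div_le_div_of_nonneg_right (hdiff i hi cs hcs) hρ.le
    have hwC : |w| * Ca ≤ 1 := by
      refine (mul_le_mul_of_nonneg_right hwabs (by linarith)).trans ?_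
      rw [div_mul_eq_mul_div, div_le_one hρ]
      exact hΛCa
    have hye : ((q i : ℝ) / q cs) ^ e = (Fr R cs ρ).eval w := by
      rw [hw, Fr_eval R cs i hρ.ne', hqi.2.2, hqs.2.2]
      push_cast
      have hb' : (b : ℝ) ≠ 0 := by exact_mod_cast hb
      rw [div_pow, mul_div_mul_left _ _ hb']
    have h1 := hP w _ hwC (by positivity) hye
    have hGw : G.eval (t i : ℝ) = q cs * P.eval w := by
      have h2 : (v : ℝ) / ρ * (t i : ℝ) = w := by
        rw [hw, ← htv i hi]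
        push_cast
        ring
      rw [hG]
      simp [eval_comp, h2]
    rw [hGw]
    have h3 : (q i : ℝ) - q cs * P.eval w = q cs * ((q i : ℝ) / q cs - P.eval w) := by
      field_simp
    rw [h3, abs_mul, abs_of_pos hqs0]
    refine mul_le_mul hqs.2.1 (h1.trans ?_) (abs_nonneg _) (by linarith)
    exact mul_le_mul_of_nonneg_left (pow_le_pow_left₀ (abs_nonneg _) hwabs k) (by linarith)
  have hτ : 1 ≤ Λ / v := by rwa [one_le_div hv0]
  obtain ⟨L, hLdeg, hL⟩ := exists_poly hk (by nlinarith : k ≤ S.card) htinj hGdeg hτ hη htd (by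
    refine lt_of_eq_of_lt ?_ hlt
    ring)
  -- the polynomial identity
  set Z : ℚ[X] := (R.map (Int.castRingHom ℚ)).comp (C (cs : ℚ) + C (v : ℚ) * X) - C (b : ℚ) * L ^ e
    with hZ
  have hPd : (R.map (Int.castRingHom ℚ)).natDegree = D := by
    rw [natDegree_map_eq_of_injective (RingHom.injective_int _), hdeg]
  have hvQ : (v : ℚ) ≠ 0 := by exact_mod_cast (by omega : v ≠ 0)
  have hZdeg : Z.natDegree ≤ D + e * k := by
    refine (natDegree_sub_le _ _).trans (max_le ?_ ?_)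
    · refine natDegree_comp_le.trans ?_
      rw [hPd]
      have : (C (cs : ℚ) + C (v : ℚ) * X : ℚ[X]).natDegree ≤ 1 := by
        rw [add_comm]; exact (natDegree_linear hvQ).le
      calc D * _ ≤ D * 1 := Nat.mul_le_mul_left _ this
        _ ≤ D + e * k := by omega
    · refine (natDegree_C_mul_le _ _).trans (natDegree_pow_le.trans ?_)
      have : e * L.natDegree ≤ e * k := Nat.mul_le_mul_left _ hLdeg.le
      omega
  have hZ0 : Z = 0 := by
    have hinj : Set.InjOn (fun i => ((t i : ℤ) : ℚ)) S := by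
      intro i hi j hj hij
      have hij' : ((t i : ℤ) : ℚ) = ((t j : ℤ) : ℚ) := hij
      exact htinj hi hj (by exact_mod_cast hij')
    refine Polynomial.eq_zero_of_degree_lt_of_eval_index_eq_zero (s := S) hinj ?_ ?_
    · refine lt_of_le_of_lt degree_le_natDegree ?_
      exact_mod_cast (by omega : Z.natDegree < S.card)
    · intro c hc
      rw [hZ, eval_sub, eval_mul, eval_C, eval_pow, hL c hc, eval_comp]
      have h1 : (C (cs : ℚ) + C (v : ℚ) * X : ℚ[X]).eval ((t c : ℤ) : ℚ) = (c : ℚ) := by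
        have h2 : (v : ℚ) * ((t c : ℤ) : ℚ) = (c : ℚ) - cs := by exact_mod_cast htv c hc
        simp only [eval_add, eval_mul, eval_C, eval_X]
        rw [h2]; ring
      rw [h1]
      have h3 : (R.map (Int.castRingHom ℚ)).eval (c : ℚ) = ((R.eval c : ℤ) : ℚ) := by
        have := eval_intCast_map (Int.castRingHom ℚ) R c
        simpa using this
      rw [h3, (hq c hc).2.2]
      push_cast
      ring
  exact not_power hsep (by rw [hPd]; exact hD) hvQ he (sub_eq_zero.1 hZ0)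

end Pool.Agent.RAD.H51
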